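import Pool.Agent.SRC.Loops

/-!
# Ratio mixing from factorisation (helper60)

`T ⊆ F` is the core, `F \ T` the shell.  Hypothesis `hfac` = (FAC) for the shell: for every `y ⊆ T`
`ZZ (F \ T) (bd y + S) * ZZ (F \ T) 0 ≤ (1 + ε) * (ZZ (F \ T) (bd y) * ZZ (F \ T) S)`.
Conclusion: the law of `η ∩ T` with sources `S` and without sources agree up to the factor `1 + ε`.
-/

set_option autoImplicit false

namespace Pool.Agent.Rm

open Finset
open Pool.Agent.SRC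

variable {d : ℕ}

/-- decomposition over the configuration in the core -/
theorem core_sum (x : ℝ) {F T : Finset (Ed d)} (hT : T ⊆ F) (S : Vx d → ZMod 2)
    (f : Finset (Ed d) → ℝ) :
    EL (loopM x) F S (fun η => f (η ∩ T)) =
      ∑ y ∈ T.powerset, x ^ y.card * f y * ZZ (loopM x) (F \ T) (bd y + S) := by
  have h := EL_union (loopM x) T (F \ T) Finset.disjoint_sdiff S (fun η => f (η ∩ T))
  rw [Finset.union_sdiff_of_subset hT] at h
  rw [h]
  refine Finset.sum_congr rfl fun y hy => ?_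
  rw [Finset.mem_powerset] at hy
  have h1 : (loopM x).a = x := rfl
  have h2 : (loopM x).b = 1 := rfl
  have h3 : (loopM x).s = 1 := rfl
  have h4 : EL (loopM x) (F \ T) (S + (loopM x).s • bd y) (fun ζ => f ((y ∪ ζ) ∩ T)) =
      EL (loopM x) (F \ T) (bd y + S) (fun _ => f y * 1) := by
    rw [h3, one_smul, add_comm S]
    refine EL_congr _ _ _ _ _ fun ζ hζ => ?_
    have h5 : (y ∪ ζ) ∩ T = y := by
      rw [Finset.union_inter_distrib_right, Finset.inter_eq_left.mpr hy,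
        Finset.disjoint_iff_inter_eq_empty.mp (Finset.sdiff_disjoint.mono_left hζ),
        Finset.union_empty]
    rw [h5, mul_one]
  have h6 : EL (loopM x) (F \ T) (bd y + S) (fun _ => f y * 1) =
      f y * ZZ (loopM x) (F \ T) (bd y + S) := by
    unfold ZZ EL
    rw [Finset.mul_sum]
    refine Finset.sum_congr rfl fun ζ _ => ?_
    ring
  rw [h4, h6, h1, h2, one_pow]
  ring

theorem core_ZZ (x : ℝ) {F T : Finset (Ed d)} (hT : T ⊆ F) (S : Vx d → ZMod 2) :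
    ZZ (loopM x) F S = ∑ y ∈ T.powerset, x ^ y.card * ZZ (loopM x) (F \ T) (bd y + S) := by
  have h := core_sum x hT S (fun _ => 1)
  have h1 : ZZ (loopM x) F S = EL (loopM x) F S (fun η => (fun _ => (1 : ℝ)) (η ∩ T)) := rfl
  rw [h1, h]
  refine Finset.sum_congr rfl fun y _ => ?_
  ring

section

variable {x ε : ℝ} {F T : Finset (Ed d)} {S : Vx d → ZMod 2} {f : Finset (Ed d) → ℝ}

/-- the four sums of the comparison -/
theorem four (hx : 0 ≤ x) (hx1 : x ≤ 1) (hε : 0 ≤ ε) (hT : T ⊆ F) (hf : ∀ y, y ⊆ T → 0 ≤ f y)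
    (hfac : ∀ y, y ⊆ T → ZZ (loopM x) (F \ T) (bd y + S) * ZZ (loopM x) (F \ T) 0 ≤
      (1 + ε) * (ZZ (loopM x) (F \ T) (bd y) * ZZ (loopM x) (F \ T) S)) :
    EL (loopM x) F S (fun η => f (η ∩ T)) * ZZ (loopM x) (F \ T) 0 ≤
        (1 + ε) * (EL (loopM x) F 0 (fun η => f (η ∩ T)) * ZZ (loopM x) (F \ T) S) ∧
      EL (loopM x) F 0 (fun η => f (η ∩ T)) * ZZ (loopM x) (F \ T) S ≤
        EL (loopM x) F S (fun η => f (η ∩ T)) * ZZ (loopM x) (F \ T) 0 := by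
  have _ := hε
  rw [core_sum x hT S f, core_sum x hT 0 f, Finset.sum_mul, Finset.sum_mul, Finset.mul_sum]
  constructor
  · refine Finset.sum_le_sum fun y hy => ?_
    rw [Finset.mem_powerset] at hy
    have h := mul_le_mul_of_nonneg_left (hfac y hy) (mul_nonneg (pow_nonneg hx y.card) (hf y hy))
    rw [add_zero]
    refine le_trans (le_of_eq ?_) (h.trans (le_of_eq ?_))
    · ring
    · ring
  · refine Finset.sum_le_sum fun y hy => ?_
    rw [Finset.mem_powerset] at hy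
    have h := mul_le_mul_of_nonneg_left (gks x hx hx1 (F \ T) (bd y) S)
      (mul_nonneg (pow_nonneg hx y.card) (hf y hy))
    rw [add_zero]
    refine le_trans (le_of_eq ?_) (h.trans (le_of_eq ?_))
    · ring
    · ring

theorem ZZ_zero_pos (hx : 0 ≤ x) (E : Finset (Ed d)) : 0 < ZZ (loopM x) E 0 :=
  lt_of_lt_of_le one_pos (ZZ_zero_ge x hx E)

theorem ZZ_nn (hx : 0 ≤ x) (E : Finset (Ed d)) (A : Vx d → ZMod 2) : 0 ≤ ZZ (loopM x) E A :=
  ZZ_nonneg (loopM x) hx zero_le_one E A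

theorem EL_core_nn (hx : 0 ≤ x) (hT : T ⊆ F) (hf : ∀ y, y ⊆ T → 0 ≤ f y) (A : Vx d → ZMod 2) :
    0 ≤ EL (loopM x) F A (fun η => f (η ∩ T)) := by
  rw [core_sum x hT]
  exact Finset.sum_nonneg fun y hy => mul_nonneg
    (mul_nonneg (pow_nonneg hx _) (hf y (Finset.mem_powerset.mp hy))) (ZZ_nn hx _ _)

/-- upper ratio bound -/
theorem RMu (hx : 0 ≤ x) (hx1 : x ≤ 1) (hε : 0 ≤ ε) (hT : T ⊆ F) (hf : ∀ y, y ⊆ T → 0 ≤ f y)
    (hfac : ∀ y, y ⊆ T → ZZ (loopM x) (F \ T) (bd y + S) * ZZ (loopM x) (F \ T) 0 ≤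
      (1 + ε) * (ZZ (loopM x) (F \ T) (bd y) * ZZ (loopM x) (F \ T) S)) :
    EL (loopM x) F S (fun η => f (η ∩ T)) * ZZ (loopM x) F 0 ≤
      (1 + ε) * (EL (loopM x) F 0 (fun η => f (η ∩ T)) * ZZ (loopM x) F S) := by
  obtain ⟨h1, _⟩ := four hx hx1 hε hT hf hfac
  obtain ⟨_, h2⟩ := four (f := fun _ => 1) hx hx1 hε hT (fun _ _ => zero_le_one) hfac
  have e1 : ∀ A : Vx d → ZMod 2, EL (loopM x) F A (fun η => (fun _ => (1 : ℝ)) (η ∩ T)) =
      ZZ (loopM x) F A := fun A => rfl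
  rw [e1, e1] at h2
  have p0 := ZZ_zero_pos hx (F \ T)
  have pF := ZZ_nn hx F (0 : Vx d → ZMod 2)
  have pV := EL_core_nn hx hT hf (0 : Vx d → ZMod 2)
  refine le_of_mul_le_mul_right (a := ZZ (loopM x) (F \ T) 0) ?_ p0
  set U := EL (loopM x) F S (fun η => f (η ∩ T))
  set V := EL (loopM x) F 0 (fun η => f (η ∩ T))
  set z0 := ZZ (loopM x) (F \ T) 0
  set zS := ZZ (loopM x) (F \ T) S
  set W := ZZ (loopM x) F S
  set Y := ZZ (loopM x) F 0
  calc U * Y * z0 = (U * z0) * Y := by ring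
    _ ≤ ((1 + ε) * (V * zS)) * Y := mul_le_mul_of_nonneg_right h1 pF
    _ = ((1 + ε) * V) * (Y * zS) := by ring
    _ ≤ ((1 + ε) * V) * (W * z0) :=
        mul_le_mul_of_nonneg_left h2 (mul_nonneg (by linarith) pV)
    _ = (1 + ε) * (V * W) * z0 := by ring

/-- lower ratio bound -/
theorem RMl (hx : 0 ≤ x) (hx1 : x ≤ 1) (hε : 0 ≤ ε) (hT : T ⊆ F) (hf : ∀ y, y ⊆ T → 0 ≤ f y)
    (hfac : ∀ y, y ⊆ T → ZZ (loopM x) (F \ T) (bd y + S) * ZZ (loopM x) (F \ T) 0 ≤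
      (1 + ε) * (ZZ (loopM x) (F \ T) (bd y) * ZZ (loopM x) (F \ T) S)) :
    EL (loopM x) F 0 (fun η => f (η ∩ T)) * ZZ (loopM x) F S ≤
      (1 + ε) * (EL (loopM x) F S (fun η => f (η ∩ T)) * ZZ (loopM x) F 0) := by
  obtain ⟨_, h1⟩ := four hx hx1 hε hT hf hfac
  obtain ⟨h2, _⟩ := four (f := fun _ => 1) hx hx1 hε hT (fun _ _ => zero_le_one) hfac
  have e1 : ∀ A : Vx d → ZMod 2, EL (loopM x) F A (fun η => (fun _ => (1 : ℝ)) (η ∩ T)) =
      ZZ (loopM x) F A := fun A => rfl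
  rw [e1, e1] at h2
  have p0 := ZZ_zero_pos hx (F \ T)
  have pF := ZZ_nn hx F (0 : Vx d → ZMod 2)
  have pV := EL_core_nn hx hT hf (0 : Vx d → ZMod 2)
  refine le_of_mul_le_mul_right (a := ZZ (loopM x) (F \ T) 0) ?_ p0
  set U := EL (loopM x) F S (fun η => f (η ∩ T))
  set V := EL (loopM x) F 0 (fun η => f (η ∩ T))
  set z0 := ZZ (loopM x) (F \ T) 0
  set zS := ZZ (loopM x) (F \ T) S
  set W := ZZ (loopM x) F S
  set Y := ZZ (loopM x) F 0
  calc V * W * z0 = V * (W * z0) := by ring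
    _ ≤ V * ((1 + ε) * (Y * zS)) := mul_le_mul_of_nonneg_left h2 pV
    _ = ((1 + ε) * Y) * (V * zS) := by ring
    _ ≤ ((1 + ε) * Y) * (U * z0) :=
        mul_le_mul_of_nonneg_left h1 (mul_nonneg (by linarith) pF)
    _ = (1 + ε) * (U * Y) * z0 := by ring

/-- upper ratio bound for two independent copies -/
theorem RMu2 {S' : Vx d → ZMod 2} {g : Finset (Ed d) → Finset (Ed d) → ℝ}
    (hx : 0 ≤ x) (hx1 : x ≤ 1) (hε : 0 ≤ ε) (hT : T ⊆ F)
    (hg : ∀ y z, y ⊆ T → z ⊆ T → 0 ≤ g y z)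
    (hfac : ∀ y, y ⊆ T → ZZ (loopM x) (F \ T) (bd y + S) * ZZ (loopM x) (F \ T) 0 ≤
      (1 + ε) * (ZZ (loopM x) (F \ T) (bd y) * ZZ (loopM x) (F \ T) S))
    (hfac' : ∀ y, y ⊆ T → ZZ (loopM x) (F \ T) (bd y + S') * ZZ (loopM x) (F \ T) 0 ≤
      (1 + ε) * (ZZ (loopM x) (F \ T) (bd y) * ZZ (loopM x) (F \ T) S')) :
    EL (loopM x) F S (fun η => EL (loopM x) F S' (fun η' => g (η ∩ T) (η' ∩ T))) *
        (ZZ (loopM x) F 0 * ZZ (loopM x) F 0) ≤
      (1 + ε) ^ 2 * (EL (loopM x) F 0 (fun η => EL (loopM x) F 0 (fun η' => g (η ∩ T) (η' ∩ T))) *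
        (ZZ (loopM x) F S * ZZ (loopM x) F S')) := by
  have pF := ZZ_nn hx F (0 : Vx d → ZMod 2)
  have pS := ZZ_nn hx F S
  have pS' := ZZ_nn hx F S'
  -- inner copy
  have h1 : EL (loopM x) F S (fun η => EL (loopM x) F S' (fun η' => g (η ∩ T) (η' ∩ T))) *
      ZZ (loopM x) F 0 ≤
      (1 + ε) * (EL (loopM x) F S (fun η => EL (loopM x) F 0 (fun η' => g (η ∩ T) (η' ∩ T))) *
        ZZ (loopM x) F S') := by
    have e1 : EL (loopM x) F S (fun η => EL (loopM x) F S' (fun η' => g (η ∩ T) (η' ∩ T))) *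
        ZZ (loopM x) F 0 = EL (loopM x) F S (fun η =>
          EL (loopM x) F S' (fun η' => g (η ∩ T) (η' ∩ T)) * ZZ (loopM x) F 0) := by
      unfold EL
      rw [Finset.sum_mul]
      refine Finset.sum_congr rfl fun η _ => ?_
      ring
    have e2 : (1 + ε) * (EL (loopM x) F S
        (fun η => EL (loopM x) F 0 (fun η' => g (η ∩ T) (η' ∩ T))) * ZZ (loopM x) F S') =
        EL (loopM x) F S (fun η => (1 + ε) *
          (EL (loopM x) F 0 (fun η' => g (η ∩ T) (η' ∩ T)) * ZZ (loopM x) F S')) := by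
      unfold EL
      rw [Finset.sum_mul, Finset.mul_sum]
      refine Finset.sum_congr rfl fun η _ => ?_
      ring
    rw [e1, e2]
    refine EL_mono (loopM x) hx zero_le_one F S _ _ fun η _ => ?_
    exact RMu (f := fun z => g (η ∩ T) z) hx hx1 hε hT
      (fun z hz => hg _ z Finset.inter_subset_right hz) hfac'
  -- outer copy
  have h2 := RMu (S := S) (f := fun y => EL (loopM x) F 0 (fun η' => g y (η' ∩ T))) hx hx1 hε hT
    (fun y hy => EL_core_nn hx hT (fun z hz => hg y z hy hz) 0) hfac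
  have h3 := mul_le_mul_of_nonneg_right h1 pF
  have h4 := mul_le_mul_of_nonneg_left h2 (mul_nonneg (by linarith : (0:ℝ) ≤ 1 + ε) pS')
  refine le_trans (le_of_eq ?_) (h3.trans ((le_of_eq ?_).trans (h4.trans (le_of_eq ?_))))
  · ring
  · ring
  · ring

end

end Pool.Agent.Rm
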